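import Pool.Agent.H47.ST.Targets

/-! Row XSR: regular case, left part (mirrored). -/

set_option autoImplicit false

namespace Pool.Agent.H26.STK

open Finset Pool.Agent.H47.ST

theorem cl_mono (e n m : ℕ) (he : e < 2) (h : n ≤ m) : cl e n ≤ cl e m := by
  unfold cl
  split_ifs <;> omega

theorem Lh_mono (e hl hl' r r' hr hr' : ℕ) (he : e < 2) (h1 : hl ≤ hl') (h2 : r ≤ r')
    (h3 : hr ≤ hr') : Lh e hl r hr ≤ Lh e hl' r' hr' := by
  unfold Lh
  refine min_le_min (cl_mono _ _ _ (by omega) (by omega)) (cl_mono _ _ _ he (by omega))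

/-- exponents of the weight -/
theorem wt_eq (R : ℕ) (W U : ℝ) (e hl r hr : ℕ) : wt R W U e hl r hr =
    Real.exp (((R : ℝ) + 1 - (Lh e hl r hr : ℝ)) / R) *
      W ^ (if walker hl r hr then 1 else 0) * U ^ (if pend e hl r hr then 1 else 0) := by
  unfold wt
  split_ifs <;> simp

theorem wt_nonneg (R : ℕ) (W U : ℝ) (e hl r hr : ℕ) (hW : 1 ≤ W) (hU : 1 ≤ U) :
    0 ≤ wt R W U e hl r hr := by
  rw [wt_eq]
  have : 0 ≤ W := by linarith
  have : 0 ≤ U := by linarith
  positivity

theorem phC_nonneg (R : ℕ) (W U : ℝ) (e : ℕ) (hW : 1 ≤ W) (hU : 1 ≤ U) (B : List ℕ) :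
    ∀ hl hr, 0 ≤ phC R W U e hl B hr := by
  induction B with
  | nil => intro hl hr; simp [phC]
  | cons r B ih =>
    intro hl hr
    rw [phC]
    exact mul_nonneg (wt_nonneg R W U e _ _ _ hW hU) (ih _ _)

/-- one element -/
theorem wt_step (R : ℕ) (W U : ℝ) (e hl hl' r r' hr hr' i j u u' : ℕ) (hW : 1 ≤ W)
    (hU : 1 ≤ U)
    (h1 : Lh e hl r hr + 2 * i ≤ Lh e hl' r' hr')
    (h2 : (if walker hl' r' hr' then 1 else 0) + j ≤ (if walker hl r hr then 1 else 0))
    (h3 : (if pend e hl' r' hr' then 1 else 0) + u' ≤ (if pend e hl r hr then 1 else 0) + u) :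
    wt R W U e hl' r' hr' * (Real.exp (2 / R) ^ i * W ^ j * U ^ u') ≤
      U ^ u * wt R W U e hl r hr := by
  have hW0 : 0 ≤ W := by linarith
  have hU0 : 0 ≤ U := by linarith
  rw [wt_eq, wt_eq]
  have e1 : Real.exp (((R : ℝ) + 1 - (Lh e hl' r' hr' : ℝ)) / R) * Real.exp (2 / R) ^ i ≤
      Real.exp (((R : ℝ) + 1 - (Lh e hl r hr : ℝ)) / R) := by
    rw [← Real.exp_nat_mul, ← Real.exp_add]
    refine Real.exp_le_exp.2 ?_
    have e0 : ((R : ℝ) + 1 - (Lh e hl' r' hr' : ℝ)) / R + (i : ℝ) * (2 / R) =
        ((R : ℝ) + 1 - (Lh e hl' r' hr' : ℝ) + 2 * i) / R := by ring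
    rw [e0]
    refine div_le_div_of_nonneg_right ?_ (Nat.cast_nonneg _)
    have : (Lh e hl r hr : ℝ) + 2 * (i : ℝ) ≤ (Lh e hl' r' hr' : ℝ) := by exact_mod_cast h1
    linarith
  have e2 := pow_le_pow_right₀ hW h2
  have e3 := pow_le_pow_right₀ hU h3
  calc Real.exp (((R : ℝ) + 1 - (Lh e hl' r' hr' : ℝ)) / R) *
          W ^ (if walker hl' r' hr' then 1 else 0) * U ^ (if pend e hl' r' hr' then 1 else 0) *
          (Real.exp (2 / R) ^ i * W ^ j * U ^ u') =
        (Real.exp (((R : ℝ) + 1 - (Lh e hl' r' hr' : ℝ)) / R) * Real.exp (2 / R) ^ i) *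
          W ^ ((if walker hl' r' hr' then 1 else 0) + j) *
          U ^ ((if pend e hl' r' hr' then 1 else 0) + u') := by
        rw [pow_add, pow_add]; ring
    _ ≤ Real.exp (((R : ℝ) + 1 - (Lh e hl r hr : ℝ)) / R) *
          W ^ (if walker hl r hr then 1 else 0) *
          U ^ ((if pend e hl r hr then 1 else 0) + u) := by
        refine mul_le_mul (mul_le_mul e1 e2 (by positivity) (by positivity)) e3 (by positivity)
          (by positivity)
    _ = _ := by rw [pow_add]; ring

/-- exponent of `U` -/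
def eU (t H : ℕ) : ℕ := if H + 1 ≤ t then 1 else 0

/-- exponent of the gain -/
def n1 (c H : ℕ) (Z : List ℕ) : ℕ :=
  if H ≤ c then (Z.takeWhile (fun r => decide (r < c))).length else 0

/-- exponent of `W` -/
def n2 (c H : ℕ) (Z : List ℕ) : ℕ :=
  if H ≤ c + 1 then (Z.takeWhile (fun r => decide (r ≤ c))).count c else 0

theorem XSR_gen (h1 : T_TOP) (R : ℕ) (W U : ℝ) (e c T : ℕ) (hW : 1 ≤ W) (hU : 1 ≤ U) (he : e < 2)
    (hc : c % 2 = 1 - e) (hT : c + 3 ≤ T)
    (Z : List ℕ) : ∀ H a b : ℕ, a = max (c + 1) H → a ≤ b → c + 2 ≤ b → T = max H (top 0 Z) →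
    phC R W U e b (up e H Z) 0 * (Real.exp (2 / R) ^ (n1 c H Z) * W ^ (n2 c H Z)) ≤
      U ^ (eU T H) * phC R W U e a Z 0 := by
  obtain ⟨t1, -, -, t4⟩ := h1
  have hW0 : 0 ≤ W := by linarith
  have hU0 : 0 ≤ U := by linarith
  have hE : 1 ≤ Real.exp (2 / (R : ℝ)) := Real.one_le_exp (by positivity)
  induction Z with
  | nil =>
    intro H a b _ _ _ _
    have e1 : n1 c H [] = 0 := by unfold n1; simp
    have e2 : n2 c H [] = 0 := by unfold n2; simp
    rw [e1, e2]
    simp only [up, phC, pow_zero, mul_one]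
    exact one_le_pow₀ hU
  | cons r Z ih =>
    intro H a b ha hab hb ht
    have htop : top 0 (r :: Z) = max (r + 1) (top 0 Z) := by
      rw [top, t1]
      omega
    rw [htop] at ht
    -- the general step
    have key : ∀ (H2 r2 i j : ℕ), up e H (r :: Z) = r2 :: up e H2 Z → r ≤ r2 →
        max a (r + 1) = max (c + 1) H2 → T = max H2 (top 0 Z) →
        n1 c H (r :: Z) ≤ i + n1 c H2 Z → n2 c H (r :: Z) ≤ j + n2 c H2 Z →
        Lh e a r (top 0 Z) + 2 * i ≤ Lh e b r2 (top 0 (up e H2 Z)) →
        (if walker b r2 (top 0 (up e H2 Z)) then 1 else 0) + j ≤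
          (if walker a r (top 0 Z) then 1 else 0) →
        (if pend e b r2 (top 0 (up e H2 Z)) then 1 else 0) + eU T H2 ≤
          (if pend e a r (top 0 Z) then 1 else 0) + eU T H →
        phC R W U e b (up e H (r :: Z)) 0 *
            (Real.exp (2 / R) ^ (n1 c H (r :: Z)) * W ^ (n2 c H (r :: Z))) ≤
          U ^ (eU T H) * phC R W U e a (r :: Z) 0 := by
      intro H2 r2 i j hup hr2 hm hm2 hn1 hn2 hL hw hp
      have ih' := ih H2 (max a (r + 1)) (max b (r2 + 1)) hm (by omega) (by omega) hm2
      have hs := wt_step R W U e a b r r2 (top 0 Z) (top 0 (up e H2 Z)) i j (eU T H) (eU T H2)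
        hW hU hL hw hp
      rw [hup, phC, phC, Nat.max_zero, Nat.max_zero]
      have hwn := wt_nonneg R W U e b r2 (top 0 (up e H2 Z)) hW hU
      have hpn := phC_nonneg R W U e hW hU (up e H2 Z) (max b (r2 + 1)) 0
      have hpo := phC_nonneg R W U e hW hU Z (max a (r + 1)) 0
      have hc1 : Real.exp (2 / (R : ℝ)) ^ (n1 c H (r :: Z)) * W ^ (n2 c H (r :: Z)) ≤
          (Real.exp (2 / (R : ℝ)) ^ i * W ^ j) *
            (Real.exp (2 / (R : ℝ)) ^ (n1 c H2 Z) * W ^ (n2 c H2 Z)) := by
        have e1 := pow_le_pow_right₀ hE hn1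
        have e2 := pow_le_pow_right₀ hW hn2
        calc _ ≤ Real.exp (2 / (R : ℝ)) ^ (i + n1 c H2 Z) * W ^ (j + n2 c H2 Z) :=
              mul_le_mul e1 e2 (by positivity) (by positivity)
          _ = _ := by rw [pow_add, pow_add]; ring
      calc wt R W U e b r2 (top 0 (up e H2 Z)) * phC R W U e (max b (r2 + 1)) (up e H2 Z) 0 *
            (Real.exp (2 / (R : ℝ)) ^ (n1 c H (r :: Z)) * W ^ (n2 c H (r :: Z))) ≤
          wt R W U e b r2 (top 0 (up e H2 Z)) * phC R W U e (max b (r2 + 1)) (up e H2 Z) 0 *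
            ((Real.exp (2 / (R : ℝ)) ^ i * W ^ j) *
            (Real.exp (2 / (R : ℝ)) ^ (n1 c H2 Z) * W ^ (n2 c H2 Z))) :=
            mul_le_mul_of_nonneg_left hc1 (mul_nonneg hwn hpn)
        _ = wt R W U e b r2 (top 0 (up e H2 Z)) * (Real.exp (2 / (R : ℝ)) ^ i * W ^ j) *
            (phC R W U e (max b (r2 + 1)) (up e H2 Z) 0 *
              (Real.exp (2 / (R : ℝ)) ^ (n1 c H2 Z) * W ^ (n2 c H2 Z))) := by ring
        _ ≤ wt R W U e b r2 (top 0 (up e H2 Z)) * (Real.exp (2 / (R : ℝ)) ^ i * W ^ j) *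
            (U ^ (eU T H2) * phC R W U e (max a (r + 1)) Z 0) :=
            mul_le_mul_of_nonneg_left ih' (mul_nonneg hwn (by positivity))
        _ = wt R W U e b r2 (top 0 (up e H2 Z)) *
            (Real.exp (2 / (R : ℝ)) ^ i * W ^ j * U ^ (eU T H2)) *
            phC R W U e (max a (r + 1)) Z 0 := by ring
        _ ≤ U ^ (eU T H) * wt R W U e a r (top 0 Z) *
            phC R W U e (max a (r + 1)) Z 0 := mul_le_mul_of_nonneg_right hs hpo
        _ = _ := by ring
    -- the exponents
    have hn1a : ∀ H2, H ≤ c → r < c → H2 ≤ c → n1 c H (r :: Z) ≤ 1 + n1 c H2 Z := by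
      intro H2 g1 g2 g3
      unfold n1
      rw [if_pos g1, if_pos g3, List.takeWhile_cons_of_pos (by simpa using g2), List.length_cons]
      omega
    have hn1b : ∀ H2, ¬ (H ≤ c ∧ r < c) → n1 c H (r :: Z) ≤ 0 + n1 c H2 Z := by
      intro H2 g1
      have : n1 c H (r :: Z) = 0 := by
        unfold n1
        by_cases g2 : H ≤ c
        · rw [if_pos g2, List.takeWhile_cons_of_neg (by simpa using fun h => g1 ⟨g2, h⟩),
            List.length_nil]
        · rw [if_neg g2]
      omega
    have hn2a : ∀ H2, H ≤ c + 1 → r = c → H2 ≤ c + 1 → n2 c H (r :: Z) ≤ 1 + n2 c H2 Z := by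
      intro H2 g1 g2 g3
      unfold n2
      rw [if_pos g1, if_pos g3, List.takeWhile_cons_of_pos (by simpa using g2.le), g2,
        List.count_cons_self]
      omega
    have hn2b : ∀ H2, r < c → (H ≤ c + 1 → H2 ≤ c + 1) → n2 c H (r :: Z) ≤ 0 + n2 c H2 Z := by
      intro H2 g1 g2
      unfold n2
      by_cases g3 : H ≤ c + 1
      · rw [if_pos g3, if_pos (g2 g3), List.takeWhile_cons_of_pos (by simpa using g1.le),
          List.count_cons_of_ne (by omega)]
        omega
      · rw [if_neg g3]
        omega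
    have hn2c : ∀ H2, ¬ (H ≤ c + 1 ∧ r ≤ c) → n2 c H (r :: Z) ≤ 0 + n2 c H2 Z := by
      intro H2 g1
      have : n2 c H (r :: Z) = 0 := by
        unfold n2
        by_cases g2 : H ≤ c + 1
        · rw [if_pos g2, List.takeWhile_cons_of_neg (by simpa using fun h => g1 ⟨g2, h⟩),
            List.count_nil]
        · rw [if_neg g2]
      omega
    -- gain of the labels in the prefix
    have hLa : ∀ H2 r2, H ≤ c → r < c → r ≤ r2 → T = max H2 (top 0 Z) → H2 ≤ c →
        Lh e a r (top 0 Z) + 2 * 1 ≤ Lh e b r2 (top 0 (up e H2 Z)) := by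
      intro H2 r2 g1 g2 g3 g4 g5
      have hmono : top 0 Z ≤ top 0 (up e H2 Z) := by
        rw [t4]
        split_ifs <;> omega
      have e1 : Lh e a r (top 0 Z) ≤ c := by
        unfold Lh cl
        split_ifs <;> omega
      have e2 : c + 2 ≤ Lh e b r2 (top 0 (up e H2 Z)) := by
        unfold Lh cl
        split_ifs <;> omega
      omega
    have hLb : ∀ H2 r2, r ≤ r2 →
        Lh e a r (top 0 Z) + 2 * 0 ≤ Lh e b r2 (top 0 (up e H2 Z)) := by
      intro H2 r2 g3
      have hmono : top 0 Z ≤ top 0 (up e H2 Z) := by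
        rw [t4]
        split_ifs <;> omega
      have := Lh_mono e a b r r2 (top 0 Z) (top 0 (up e H2 Z)) he hab g3 hmono
      omega
    by_cases hv : H ≤ r
    · by_cases hpar : r % 2 = e
      · -- raised
        have hup : up e H (r :: Z) = (r + 1) :: up e (r + 1) Z := by
          rw [up, if_pos hv, if_pos hpar]
        have hw : (if walker b (r + 1) (top 0 (up e (r + 1) Z)) then 1 else 0) + 0 ≤
            (if walker a r (top 0 Z) then 1 else 0) := by
          rw [t4]
          unfold walker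
          split_ifs <;> omega
        have hp : (if pend e b (r + 1) (top 0 (up e (r + 1) Z)) then 1 else 0) + eU T (r + 1) ≤
            (if pend e a r (top 0 Z) then 1 else 0) + eU T H := by
          rw [t4]
          unfold pend eU
          split_ifs <;> omega
        by_cases hA : r < c
        · exact key (r + 1) (r + 1) 1 0 hup (by omega) (by omega) (by omega)
            (hn1a _ (by omega) hA (by omega)) (hn2b _ hA (by omega))
            (hLa _ _ (by omega) hA (by omega) (by omega) (by omega)) hw hp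
        · exact key (r + 1) (r + 1) 0 0 hup (by omega) (by omega) (by omega)
            (hn1b _ (by omega)) (hn2c _ (by omega)) (hLb _ _ (by omega)) hw hp
      · -- visible, not raised
        have hup : up e H (r :: Z) = r :: up e (r + 1) Z := by
          rw [up, if_pos hv, if_neg hpar]
        have hp : (if pend e b r (top 0 (up e (r + 1) Z)) then 1 else 0) + eU T (r + 1) ≤
            (if pend e a r (top 0 Z) then 1 else 0) + eU T H := by
          rw [t4]
          unfold pend eU
          split_ifs <;> omega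
        by_cases hB : r = c
        · have hw : (if walker b r (top 0 (up e (r + 1) Z)) then 1 else 0) + 1 ≤
              (if walker a r (top 0 Z) then 1 else 0) := by
            rw [t4]
            unfold walker
            split_ifs <;> omega
          exact key (r + 1) r 0 1 hup le_rfl (by omega) (by omega)
            (hn1b _ (by omega)) (hn2a _ (by omega) hB (by omega)) (hLb _ _ le_rfl) hw hp
        · have hw : (if walker b r (top 0 (up e (r + 1) Z)) then 1 else 0) + 0 ≤
              (if walker a r (top 0 Z) then 1 else 0) := by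
            rw [t4]
            unfold walker
            split_ifs <;> omega
          by_cases hA : r < c
          · exact key (r + 1) r 1 0 hup le_rfl (by omega) (by omega)
              (hn1a _ (by omega) hA (by omega)) (hn2b _ hA (by omega))
              (hLa _ _ (by omega) hA le_rfl (by omega) (by omega)) hw hp
          · exact key (r + 1) r 0 0 hup le_rfl (by omega) (by omega)
              (hn1b _ (by omega)) (hn2c _ (by omega)) (hLb _ _ le_rfl) hw hp
    · -- not visible
      have hup : up e H (r :: Z) = r :: up e H Z := by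
        rw [up, if_neg hv]
      have hp : (if pend e b r (top 0 (up e H Z)) then 1 else 0) + eU T H ≤
          (if pend e a r (top 0 Z) then 1 else 0) + eU T H := by
        rw [t4]
        unfold pend eU
        split_ifs <;> omega
      by_cases hB : H ≤ c + 1 ∧ r = c
      · have hw : (if walker b r (top 0 (up e H Z)) then 1 else 0) + 1 ≤
            (if walker a r (top 0 Z) then 1 else 0) := by
          rw [t4]
          unfold walker
          split_ifs <;> omega
        exact key H r 0 1 hup le_rfl (by omega) (by omega)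
          (hn1b _ (by omega)) (hn2a _ hB.1 hB.2 hB.1) (hLb _ _ le_rfl) hw hp
      · have hw : (if walker b r (top 0 (up e H Z)) then 1 else 0) + 0 ≤
            (if walker a r (top 0 Z) then 1 else 0) := by
          rw [t4]
          unfold walker
          split_ifs <;> omega
        by_cases hA : H ≤ c ∧ r < c
        · exact key H r 1 0 hup le_rfl (by omega) (by omega)
            (hn1a _ hA.1 hA.2 hA.1) (hn2b _ hA.2 (fun h => h))
            (hLa _ _ hA.1 hA.2 le_rfl (by omega) hA.1) hw hp
        · by_cases hC : r < c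
          · exact key H r 0 0 hup le_rfl (by omega) (by omega)
              (hn1b _ hA) (hn2b _ hC (fun h => h)) (hLb _ _ le_rfl) hw hp
          · exact key H r 0 0 hup le_rfl (by omega) (by omega)
              (hn1b _ hA) (hn2c _ (by omega)) (hLb _ _ le_rfl) hw hp

theorem pf_XSR (h1 : T_TOP) : T_XSR := by
  intro R W U e t hl Z _ hW hU he ht hpar hZ hhl
  obtain ⟨c, rfl⟩ : ∃ c, t = c + 1 := ⟨t - 1, by omega⟩
  have hU0 : 0 ≤ U := by linarith
  simp only [Nat.add_sub_cancel] at hpar ⊢
  have h := XSR_gen h1 R W U e c (top 0 Z) hW hU he hpar (by omega) Z 0 (c + 1) hl (by omega)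
    (by omega) (by omega) (by omega)
  have e1 : n1 c 0 Z = (Z.takeWhile (fun r => decide (r < c))).length := by
    unfold n1; rw [if_pos (Nat.zero_le _)]
  have e2 : n2 c 0 Z = (Z.takeWhile (fun r => decide (r ≤ c))).count c := by
    unfold n2; rw [if_pos (Nat.zero_le _)]
  have e3 : eU (top 0 Z) 0 = 1 := by unfold eU; rw [if_pos (by omega)]
  rw [e1, e2, e3, pow_one] at h
  have e4 : Real.exp (2 * ((Z.takeWhile (fun r => decide (r < c))).length : ℝ) / R) =
      Real.exp (2 / (R : ℝ)) ^ (Z.takeWhile (fun r => decide (r < c))).length := by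
    rw [← Real.exp_nat_mul]
    congr 1
    ring
  rw [e4, mul_assoc]
  exact h

end Pool.Agent.H26.STK
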